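import Pool.Agent.H1.HomLogUE

set_option autoImplicit false

namespace Pool.Agent.Results.MP_1dfe91_lc.LogicallyPerfect

open Pool.Agent.H1.PAlg

universe u

/-- For every field `P` the variety of commutative associative unital `P`-algebras is logically
perfect: every polynomial algebra in finitely many variables is logically homogeneous. -/
theorem result : ∀ (P : Type u) [Field P] (m : ℕ),
    LogicallyHomogeneous P (MvPolynomial (Fin m) P) := by
  intro P _ m
  exact Pool.Agent.H1.HomLogU.logicallyHomogeneous P m

end Pool.Agent.Results.MP_1dfe91_lc.LogicallyPerfect
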